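import Pool.Agent.Q24.Ech.Basic
import Pool.Agent.Results.MP_339e71_al.EchelonIntersection

/-!
# MP_3ccc78_al, Q1: an echelon subgroup whose intersection with a subgroup `G` of index two is not
echelon in `G`

In `F = ⟨a, b⟩` let `G` be the subgroup of index two of the words with an even number of `a`'s; it is
free on `x = a²`, `y = b`, `z = a b a⁻¹`. Let `w = ⁅⁅x, y⁆, z⁆` and `H = ⟨a, w⟩`, an echelon subgroup of
`F`. Then `K = H ∩ G` is generated by `x`, `w` and `w' = a w a⁻¹ = ⁅⁅x, z⁆, x y x⁻¹⁆`, and has rank 3.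

If `K` was echelon in `G` then `K ∩ A` would have rank at least two for a proper free factor `A` of
`G`. Homomorphisms from `K ∩ A` to `ℚ` extend to `K`, as `A` is a free factor of `G`. So `K ∩ A`
contains an element `l` which is `w ^ j w' ^ k` times an element of `⁅K, K⁆`, `(j, k) ≠ (0, 0)`. Let
`φ : G → ℚ` be nonzero with `φ (A) = 0`, and `ψ, χ : G → ℚ` arbitrary. The representation `ρ` of `G`
by unitriangular `4 × 4` matrices with `φ, ψ, χ` on the superdiagonal maps `l` to a matrix with first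
row `(1, 0, 0, 0)`, and `ρ (l) = ρ (w) ^ j ρ (w') ^ k`. The upper right corners of `ρ (w)`, `ρ (w')`
only depend on `φ, ψ, χ`, and this shows `φ (x) = φ (y) = φ (z) = 0`, a contradiction.
-/

set_option autoImplicit false

open scoped commutatorElement

namespace Pool.Agent.Results.MP_3ccc78_al.IndexTwo

open Pool.Agent.Q24.Ech (U4 lift_basis closure_basis rank_ge exists_homs extend)

/-- The group `H` is free of rank `r`. -/
def HasRank {F : Type} [Group F] (H : Subgroup F) (r : ℕ) : Prop :=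
  Nonempty (FreeGroup (Fin r) ≃* H)

/-- `F_i = ⟨x_1, …, x_i⟩`, for an ordered free basis `X = (x_1, …, x_n)` of the group `Γ`. -/
def flag {Γ : Type} [Group Γ] {n : ℕ} (X : FreeGroupBasis (Fin n) Γ) (i : ℕ) : Subgroup Γ :=
  Subgroup.closure {g | ∃ j : Fin n, (j : ℕ) < i ∧ g = X j}

/-- `H` is in echelon form with respect to the ordered basis `X`:
`rk (H ∩ F_{i+1}) - rk (H ∩ F_i) ≤ 1` for `i = 0, …, n - 1`. -/
def InEchelonForm {Γ : Type} [Group Γ] {n : ℕ} (X : FreeGroupBasis (Fin n) Γ)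
    (H : Subgroup Γ) : Prop :=
  ∀ i < n, ∃ r s : ℕ, HasRank (H ⊓ flag X (i + 1)) r ∧ HasRank (H ⊓ flag X i) s ∧ r ≤ s + 1

/-- `H` is an echelon subgroup of the free group `Γ` of finite rank. -/
def IsEchelon {Γ : Type} [Group Γ] (H : Subgroup Γ) : Prop :=
  ∃ (n : ℕ) (X : FreeGroupBasis (Fin n) Γ), InEchelonForm X H

/-! ### The non-echelon subgroup -/

section main

variable {Γ : Type} [Group Γ]

/-- the elements of `K` have exponents `i`, `j`, `k` with respect to `x`, `w`, `w'` -/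
theorem exists_exponents {x w w' : Γ} {K : Subgroup Γ} (hK : K = Subgroup.closure {x, w, w'})
    (hx : x ∈ K) (hw : w ∈ K) (hw' : w' ∈ K)
    (h1 : ∀ ρ : Γ →* U4, ρ w = U4.cen (ρ w).u) (h2 : ∀ ρ : Γ →* U4, ρ w' = U4.cen (ρ w').u)
    (g : Γ) (hg : g ∈ K) : ∃ i j k : ℤ,
      (∀ f : K →* Multiplicative ℚ, (f ⟨g, hg⟩).toAdd =
        i * (f ⟨x, hx⟩).toAdd + j * (f ⟨w, hw⟩).toAdd + k * (f ⟨w', hw'⟩).toAdd) ∧
      ∀ ρ : Γ →* U4, ρ g = ρ x ^ i * U4.cen (j * (ρ w).u + k * (ρ w').u) := by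
  subst hK
  induction hg using Subgroup.closure_induction with
  | mem g hg =>
    rcases hg with rfl | rfl | rfl
    · exact ⟨1, 0, 0, fun f => by simp, fun ρ => by simp [U4.cen_zero]⟩
    · exact ⟨0, 1, 0, fun f => by simp, fun ρ => by simpa using h1 ρ⟩
    · exact ⟨0, 0, 1, fun f => by simp, fun ρ => by simpa using h2 ρ⟩
  | one =>
    refine ⟨0, 0, 0, fun f => ?_, fun ρ => by simp [U4.cen_zero]⟩
    have : (⟨1, one_mem _⟩ : ↥(Subgroup.closure {x, w, w'})) = 1 := rfl
    rw [this, map_one]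
    simp
  | mul g g' hg hg' ih ih' =>
    obtain ⟨i, j, k, e1, e2⟩ := ih
    obtain ⟨i', j', k', e1', e2'⟩ := ih'
    refine ⟨i + i', j + j', k + k', fun f => ?_, fun ρ => ?_⟩
    · have : (⟨g * g', mul_mem hg hg'⟩ : ↥(Subgroup.closure {x, w, w'})) =
        ⟨g, hg⟩ * ⟨g', hg'⟩ := rfl
      rw [this, map_mul, toAdd_mul, e1, e1']
      push_cast
      ring
    · rw [map_mul, e2, e2', mul_assoc, ← mul_assoc (U4.cen _) _ (U4.cen _), U4.cen_comm,
        mul_assoc, U4.cen_mul, ← mul_assoc, ← zpow_add]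
      congr 2
      push_cast
      ring
  | inv g hg ih =>
    obtain ⟨i, j, k, e1, e2⟩ := ih
    refine ⟨-i, -j, -k, fun f => ?_, fun ρ => ?_⟩
    · have : (⟨g⁻¹, inv_mem hg⟩ : ↥(Subgroup.closure {x, w, w'})) = ⟨g, hg⟩⁻¹ := rfl
      rw [this, map_inv, toAdd_inv, e1]
      push_cast
      ring
    · rw [map_inv, e2, mul_inv_rev, U4.cen_inv, U4.cen_comm, zpow_neg]
      congr 2
      push_cast
      ring

/-- The key lemma. -/
theorem not_echelon (x y z : Γ)
    (huniv : ∀ (N : Type) [Group N] (a b c : N), ∃ f : Γ →* N, f x = a ∧ f y = b ∧ f z = c)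
    (hgen : Subgroup.closure {x, y, z} = ⊤) (K : Subgroup Γ)
    (hK : K = Subgroup.closure {x, ⁅⁅x, y⁆, z⁆, ⁅⁅x, z⁆, x * y * x⁻¹⁆}) : ¬ IsEchelon K := by
  rintro ⟨n, X, hX⟩
  set w := ⁅⁅x, y⁆, z⁆ with hw0
  set w' := ⁅⁅x, z⁆, x * y * x⁻¹⁆ with hw0'
  have hx : x ∈ K := hK ▸ Subgroup.subset_closure (by simp)
  have hw : w ∈ K := hK ▸ Subgroup.subset_closure (by simp)
  have hw' : w' ∈ K := hK ▸ Subgroup.subset_closure (by simp)
  have c0 : ∀ ρ : Γ →* U4, ρ w = U4.cen (((ρ x).p * (ρ y).q - (ρ y).p * (ρ x).q) * (ρ z).r -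
      (ρ z).p * ((ρ x).q * (ρ y).r - (ρ y).q * (ρ x).r)) := by
    intro ρ
    rw [hw0, map_commutatorElement, map_commutatorElement, U4.comm3]
  have c1 : ∀ ρ : Γ →* U4, ρ w' = U4.cen (((ρ x).p * (ρ z).q - (ρ z).p * (ρ x).q) * (ρ y).r -
      (ρ y).p * ((ρ x).q * (ρ z).r - (ρ z).q * (ρ x).r)) := by
    intro ρ
    rw [hw0', map_commutatorElement, map_commutatorElement, U4.comm3]
    simp only [map_mul, map_inv, U4.mul_p, U4.mul_r, U4.inv_p, U4.inv_r]
    congr 1
    ring
  have d0 : ∀ ρ : Γ →* U4, ρ w = U4.cen (ρ w).u := by intro ρ; rw [c0]; rfl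
  have d1 : ∀ ρ : Γ →* U4, ρ w' = U4.cen (ρ w').u := by intro ρ; rw [c1]; rfl
  have hexp := exists_exponents hK hx hw hw' d0 d1
  -- homomorphisms on `K` that show that the rank is at least three
  have hrank : ∀ r, HasRank K r → 3 ≤ r := by
    intro r hr
    obtain ⟨ρ0, a1, a2, a3⟩ := huniv (Multiplicative ℚ) (Multiplicative.ofAdd 1) 1 1
    obtain ⟨ρ1, b1, b2, b3⟩ := huniv U4 ⟨1, 0, 0, 0, 0, 0⟩ ⟨0, 1, 0, 0, 0, 0⟩ ⟨0, 0, 1, 0, 0, 0⟩
    obtain ⟨ρ2, e1, e2, e3⟩ := huniv U4 ⟨1, 0, 0, 0, 0, 0⟩ ⟨0, 0, 1, 0, 0, 0⟩ ⟨0, 1, 0, 0, 0, 0⟩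
    -- powers of `(1, 0, 0, …)`
    have hpow : ∀ i : ℤ, (⟨1, 0, 0, 0, 0, 0⟩ : U4) ^ i = ⟨i, 0, 0, 0, 0, 0⟩ := by
      intro i
      induction i with
      | zero => simp; rfl
      | succ n ih => rw [zpow_add_one, ih]; ext <;> simp
      | pred n ih => rw [zpow_sub_one, ih]; ext <;> simp; ring
    have hu : ∀ ρ : Γ →* U4, ρ x = ⟨1, 0, 0, 0, 0, 0⟩ → ∀ g g' : Γ, g ∈ K → g' ∈ K →
        (ρ (g * g')).u = (ρ g).u + (ρ g').u := by
      intro ρ hρ g g' hg hg'
      obtain ⟨i, j, k, -, h1⟩ := hexp g hg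
      obtain ⟨i', j', k', -, h1'⟩ := hexp g' hg'
      rw [map_mul, h1 ρ, h1' ρ, hρ, hpow, hpow]
      simp [U4.cen]
    let F1 : K →* Multiplicative ℚ := MonoidHom.mk' (fun k => Multiplicative.ofAdd (ρ1 k.1).u)
      (by
        intro g g'
        rw [← ofAdd_add, ← hu ρ1 b1 _ _ g.2 g'.2]
        rfl)
    let F2 : K →* Multiplicative ℚ := MonoidHom.mk' (fun k => Multiplicative.ofAdd (ρ2 k.1).u)
      (by
        intro g g'
        rw [← ofAdd_add, ← hu ρ2 e1 _ _ g.2 g'.2]
        rfl)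
    have f0w : ρ0 w = 1 := by
      rw [hw0, map_commutatorElement]
      exact commutatorElement_eq_one_iff_mul_comm.2 (mul_comm _ _)
    have f0w' : ρ0 w' = 1 := by
      rw [hw0', map_commutatorElement]
      exact commutatorElement_eq_one_iff_mul_comm.2 (mul_comm _ _)
    refine rank_ge hr ![⟨x, hx⟩, ⟨w, hw⟩, ⟨w', hw'⟩] ![ρ0.comp K.subtype, F1, F2] ?_
    intro i j
    have g1 : (ρ1 x).u = 0 := by rw [b1]
    have g2 : (ρ2 x).u = 0 := by rw [e1]
    have g3 : (ρ1 w).u = 1 := by rw [c0, b1, b2, b3]; simp [U4.cen]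
    have g4 : (ρ1 w').u = 0 := by rw [c1, b1, b2, b3]; simp [U4.cen]
    have g5 : (ρ2 w).u = 0 := by rw [c0, e1, e2, e3]; simp [U4.cen]
    have g6 : (ρ2 w').u = 1 := by rw [c1, e1, e2, e3]; simp [U4.cen]
    fin_cases i <;> fin_cases j
    · show (ρ0 x).toAdd = _; rw [a1]; simp
    · show (ρ0 w).toAdd = _; rw [f0w]; simp
    · show (ρ0 w').toAdd = _; rw [f0w']; simp
    · show (ρ1 x).u = _; rw [g1]; simp
    · show (ρ1 w).u = _; rw [g3]; simp
    · show (ρ1 w').u = _; rw [g4]; simp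
    · show (ρ2 x).u = _; rw [g2]; simp
    · show (ρ2 w).u = _; rw [g5]; simp
    · show (ρ2 w').u = _; rw [g6]; simp
  -- the free factor
  obtain ⟨m, rfl⟩ : ∃ m, n = m + 1 := by
    rcases Nat.eq_zero_or_pos n with rfl | hn
    · exfalso
      obtain ⟨f, hf, -⟩ := huniv (Multiplicative ℚ) (Multiplicative.ofAdd 1) 1 1
      have h1 : f = 1 := X.ext_hom f 1 (fun i => i.elim0)
      rw [h1] at hf
      have : (0 : ℚ) = 1 := hf
      norm_num at this
    · exact ⟨n - 1, by omega⟩
  obtain ⟨r, s, hr, hs, hrs⟩ := hX m (Nat.lt_succ_self m)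
  have htop : flag X (m + 1) = ⊤ := by
    rw [← closure_basis X]
    unfold flag
    congr 1
    ext g
    constructor
    · rintro ⟨j, -, rfl⟩; exact ⟨j, rfl⟩
    · rintro ⟨j, rfl⟩; exact ⟨j, j.2, rfl⟩
  rw [htop, inf_top_eq] at hr
  have hr3 := hrank r hr
  set A := flag X m with hA
  have hAX : A = Subgroup.closure (X '' {j : Fin (m + 1) | (j : ℕ) < m}) := by
    rw [hA]
    unfold flag
    congr 1
    ext g
    constructor
    · rintro ⟨j, hj, rfl⟩; exact ⟨j, hj, rfl⟩
    · rintro ⟨j, hj, rfl⟩; exact ⟨j, hj, rfl⟩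
  obtain ⟨l, f, hlf⟩ := exists_homs (L := K ⊓ A) hs (by omega)
  choose F hF using fun i => extend X _ K A hAX (f i)
  have hFl : ∀ i j, (F i ⟨(l j : Γ), (l j).2.1⟩).toAdd = if i = j then 1 else 0 := by
    intro i j
    rw [hF i (l j : Γ) (l j).2]
    exact hlf i j
  obtain ⟨i1, j1, k1, p1, q1⟩ := hexp (l 0 : Γ) (l 0).2.1
  obtain ⟨i2, j2, k2, p2, q2⟩ := hexp (l 1 : Γ) (l 1).2.1
  -- an element of `K ∩ A` with exponents `(0, J, M) ≠ (0, 0, 0)`
  obtain ⟨P, Q, hPQ, hPQ0⟩ : ∃ P Q : ℤ, P * i1 + Q * i2 = 0 ∧ ¬ (P = 0 ∧ Q = 0) := by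
    by_cases h : i1 = 0 ∧ i2 = 0
    · exact ⟨1, 0, by rw [h.1, h.2]; ring, by simp⟩
    · exact ⟨i2, -i1, by ring, fun h' => h ⟨by omega, h'.1⟩⟩
  set J := P * j1 + Q * j2 with hJ
  set M := P * k1 + Q * k2 with hM
  have hJM : ¬ (J = 0 ∧ M = 0) := by
    rintro ⟨hJ0, hM0⟩
    have key : ∀ i, (P : ℚ) * (F i ⟨(l 0 : Γ), (l 0).2.1⟩).toAdd +
        Q * (F i ⟨(l 1 : Γ), (l 1).2.1⟩).toAdd = 0 := by
      intro i
      rw [p1, p2]
      have e1 : (P : ℚ) * i1 + Q * i2 = 0 := by exact_mod_cast hPQ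
      have e2 : (P : ℚ) * j1 + Q * j2 = 0 := by
        have := hJ0; rw [hJ] at this; exact_mod_cast this
      have e3 : (P : ℚ) * k1 + Q * k2 = 0 := by
        have := hM0; rw [hM] at this; exact_mod_cast this
      linear_combination (F i ⟨x, hx⟩).toAdd * e1 + (F i ⟨w, hw⟩).toAdd * e2 +
        (F i ⟨w', hw'⟩).toAdd * e3
    have k0 := key 0
    have k1' := key 1
    rw [hFl, hFl] at k0 k1'
    simp at k0 k1'
    exact hPQ0 ⟨by exact_mod_cast k0, by exact_mod_cast k1'⟩
  set g : Γ := (l 0 : Γ) ^ P * (l 1 : Γ) ^ Q with hg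
  have hgA : g ∈ A := A.mul_mem (A.zpow_mem (l 0).2.2 P) (A.zpow_mem (l 1).2.2 Q)
  have hρg : ∀ ρ : Γ →* U4, (ρ g).u = J * (ρ w).u + M * (ρ w').u + ((ρ x) ^ (0 : ℤ)).u := by
    intro ρ
    have hz : ∀ (i : ℤ) (c : ℚ) (P : ℤ), (ρ x ^ i * U4.cen c) ^ P = ρ x ^ (i * P) *
        U4.cen (P * c) := by
      intro i c P
      have hc : Commute (ρ x ^ i) (U4.cen c) := (U4.cen_comm c _).symm
      rw [hc.mul_zpow, ← zpow_mul, U4.cen_zpow]
    have e : ρ g = U4.cen (J * (ρ w).u + M * (ρ w').u) := by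
      rw [hg, map_mul, map_zpow, map_zpow, q1, q2, hz, hz, mul_assoc,
        ← mul_assoc (U4.cen _) _ (U4.cen _), U4.cen_comm, mul_assoc, U4.cen_mul, ← mul_assoc,
        ← zpow_add]
      have e0 : i1 * P + i2 * Q = 0 := by linarith [hPQ, mul_comm P i1, mul_comm Q i2]
      rw [e0, zpow_zero, one_mul]
      congr 1
      rw [hJ, hM]
      push_cast
      ring
    rw [e]
    simp [U4.cen]
  -- the functional `φ`
  let φv : Fin (m + 1) → ℚ := fun t => if (t : ℕ) = m then 1 else 0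
  let φ : Γ →* Multiplicative ℚ := X.lift fun t => Multiplicative.ofAdd (φv t)
  have main : ∀ ψ χ : Γ →* Multiplicative ℚ,
      (J : ℚ) * (((φ x).toAdd * (ψ y).toAdd - (φ y).toAdd * (ψ x).toAdd) * (χ z).toAdd -
        (φ z).toAdd * ((ψ x).toAdd * (χ y).toAdd - (ψ y).toAdd * (χ x).toAdd)) +
      M * (((φ x).toAdd * (ψ z).toAdd - (φ z).toAdd * (ψ x).toAdd) * (χ y).toAdd -
        (φ y).toAdd * ((ψ x).toAdd * (χ z).toAdd - (ψ z).toAdd * (χ x).toAdd)) = 0 := by
    intro ψ χ
    let ρ : Γ →* U4 := X.lift fun t => ⟨φv t, (ψ (X t)).toAdd, (χ (X t)).toAdd, 0, 0, 0⟩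
    have hρX : ∀ t, ρ (X t) = ⟨φv t, (ψ (X t)).toAdd, (χ (X t)).toAdd, 0, 0, 0⟩ := by
      intro t
      exact lift_basis X _ t
    let pp : U4 →* Multiplicative ℚ := MonoidHom.mk' (fun a => Multiplicative.ofAdd a.p)
      (fun a b => rfl)
    let qq : U4 →* Multiplicative ℚ := MonoidHom.mk' (fun a => Multiplicative.ofAdd a.q)
      (fun a b => rfl)
    let rr : U4 →* Multiplicative ℚ := MonoidHom.mk' (fun a => Multiplicative.ofAdd a.r)
      (fun a b => rfl)
    have hp : ∀ g, (ρ g).p = (φ g).toAdd := by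
      intro g
      have : pp.comp ρ = φ := X.ext_hom _ _ (fun t => by
        show Multiplicative.ofAdd (ρ (X t)).p = X.lift _ (X t)
        rw [hρX, lift_basis])
      exact DFunLike.congr_fun this g
    have hq : ∀ g, (ρ g).q = (ψ g).toAdd := by
      intro g
      have : qq.comp ρ = ψ := X.ext_hom _ _ (fun t => by
        show Multiplicative.ofAdd (ρ (X t)).q = _
        rw [hρX]
        rfl)
      exact DFunLike.congr_fun this g
    have hr' : ∀ g, (ρ g).r = (χ g).toAdd := by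
      intro g
      have : rr.comp ρ = χ := X.ext_hom _ _ (fun t => by
        show Multiplicative.ofAdd (ρ (X t)).r = _
        rw [hρX]
        rfl)
      exact DFunLike.congr_fun this g
    have hA0 : ∀ g ∈ A, (ρ g).p = 0 ∧ (ρ g).s = 0 ∧ (ρ g).u = 0 := by
      intro g hg
      rw [hAX] at hg
      induction hg using Subgroup.closure_induction with
      | mem g hg =>
        obtain ⟨t, ht, rfl⟩ := hg
        rw [hρX]
        have : φv t = 0 := if_neg (Nat.ne_of_lt ht)
        exact ⟨this, rfl, rfl⟩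
      | one => rw [map_one]; exact ⟨rfl, rfl, rfl⟩
      | mul a b _ _ ha hb =>
        rw [map_mul]
        simp only [U4.mul_p, U4.mul_s, U4.mul_u, ha.1, ha.2.1, ha.2.2, hb.1, hb.2.1, hb.2.2]
        norm_num
      | inv a _ ha =>
        rw [map_inv]
        simp only [U4.inv_p, U4.inv_s, U4.inv_u, ha.1, ha.2.1, ha.2.2]
        norm_num
    have h1 := (hA0 g hgA).2.2
    rw [hρg ρ, c0, c1, zpow_zero, U4.one_u, add_zero] at h1
    simp only [hp, hq, hr', U4.cen] at h1
    exact h1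
  have hh : ∀ α β γ : ℚ, ∃ ψ : Γ →* Multiplicative ℚ, (ψ x).toAdd = α ∧ (ψ y).toAdd = β ∧
      (ψ z).toAdd = γ := by
    intro α β γ
    obtain ⟨f, h1, h2, h3⟩ := huniv (Multiplicative ℚ) (Multiplicative.ofAdd α)
      (Multiplicative.ofAdd β) (Multiplicative.ofAdd γ)
    exact ⟨f, by rw [h1]; rfl, by rw [h2]; rfl, by rw [h3]; rfl⟩
  obtain ⟨u1, a1, a2, a3⟩ := hh 1 0 0
  obtain ⟨u2, b1, b2, b3⟩ := hh 0 1 0
  obtain ⟨u3, e1, e2, e3⟩ := hh 0 0 1
  have m1 := main u2 u3
  have m2 := main u3 u2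
  have m3 := main u1 u3
  have m4 := main u3 u1
  have m5 := main u1 u2
  have m6 := main u2 u1
  simp only [a1, a2, a3, b1, b2, b3, e1, e2, e3] at m1 m2 m3 m4 m5 m6
  have hJM' : (J : ℚ) ≠ 0 ∨ (M : ℚ) ≠ 0 := by
    by_contra hcon
    push Not at hcon
    exact hJM ⟨by exact_mod_cast hcon.1, by exact_mod_cast hcon.2⟩
  set α := (φ x).toAdd
  set β := (φ y).toAdd
  set γ := (φ z).toAdd
  have hα : α = 0 := by
    rcases hJM' with h | h
    · have : (J : ℚ) * α = 0 := by linarith
      exact (mul_eq_zero.1 this).resolve_left h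
    · have : (M : ℚ) * α = 0 := by linarith
      exact (mul_eq_zero.1 this).resolve_left h
  have hβ : β = 0 := by
    have t1 : (M : ℚ) * β = 0 := by linarith
    have t2 : ((J : ℚ) + M) * β = 0 := by linarith
    have t3 : (J : ℚ) * β = 0 := by linarith
    rcases hJM' with h | h
    · exact (mul_eq_zero.1 t3).resolve_left h
    · exact (mul_eq_zero.1 t1).resolve_left h
  have hγ : γ = 0 := by
    have t1 : (J : ℚ) * γ = 0 := by linarith
    have t2 : ((J : ℚ) + M) * γ = 0 := by linarith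
    have t3 : (M : ℚ) * γ = 0 := by linarith
    rcases hJM' with h | h
    · exact (mul_eq_zero.1 t1).resolve_left h
    · exact (mul_eq_zero.1 t3).resolve_left h
  have hφ : φ = 1 := by
    apply MonoidHom.eq_of_eqOn_top
    rw [← hgen]
    apply MonoidHom.eqOn_closure
    rintro g (rfl | rfl | rfl)
    · exact hα
    · exact hβ
    · exact hγ
  have h9 : φ (X (Fin.last m)) = Multiplicative.ofAdd (φv (Fin.last m)) := lift_basis X _ _
  rw [hφ] at h9
  have h10 : (0 : ℚ) = φv (Fin.last m) := h9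
  simp [φv] at h10

end main

/-! ### The example -/

theorem two_cosets {F : Type} [Group F] (a w : F) (L : Subgroup F) (ha : a * a ∈ L) (hw : w ∈ L)
    (hw' : a * w * a⁻¹ ∈ L) (h : F) (hh : h ∈ Subgroup.closure {a, w}) : h ∈ L ∨ h * a⁻¹ ∈ L := by
  have conj : ∀ g : F, g * w * a⁻¹ = (g * a⁻¹) * (a * w * a⁻¹) := by intro g; group
  have conj' : ∀ g : F, g * w⁻¹ * a⁻¹ = (g * a⁻¹) * (a * w * a⁻¹)⁻¹ := by intro g; group
  induction hh using Subgroup.closure_induction_right with
  | one => exact Or.inl L.one_mem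
  | mul_right g _ y hy ih =>
    rcases hy with rfl | rfl
    · rcases ih with h1 | h1
      · right
        rw [mul_inv_cancel_right]
        exact h1
      · left
        have : g * y = (g * y⁻¹) * (y * y) := by group
        rw [this]
        exact L.mul_mem h1 ha
    · rcases ih with h1 | h1
      · exact Or.inl (L.mul_mem h1 hw)
      · right
        rw [conj]
        exact L.mul_mem h1 hw'
  | mul_inv_cancel g _ y hy ih =>
    rcases hy with rfl | rfl
    · rcases ih with h1 | h1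
      · right
        have : g * y⁻¹ * y⁻¹ = g * (y * y)⁻¹ := by group
        rw [this]
        exact L.mul_mem h1 (L.inv_mem ha)
      · exact Or.inl h1
    · rcases ih with h1 | h1
      · exact Or.inl (L.mul_mem h1 (L.inv_mem hw))
      · right
        rw [conj']
        exact L.mul_mem h1 (L.inv_mem hw')

/-- the free group of rank two -/
abbrev F₂ : Type := FreeGroup (Fin 2)

def a : F₂ := FreeGroup.of 0
def b : F₂ := FreeGroup.of 1

/-- `w = ⁅⁅a², b⁆, a b a⁻¹⁆` -/
def w : F₂ := ⁅⁅a * a, b⁆, a * b * a⁻¹⁆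

/-- the echelon subgroup `H = ⟨a, w⟩` -/
def H : Subgroup F₂ := Subgroup.closure {a, w}

/-- the embedding of the free group of rank three with image `G` -/
def emb : FreeGroup (Fin 3) →* F₂ := FreeGroup.lift ![a * a, b, a * b * a⁻¹]

/-- the subgroup `G = ⟨a², b, a b a⁻¹⟩` -/
def G : Subgroup F₂ := emb.range

/-- the action of `a` -/
def permA : Equiv.Perm (FreeGroup (Fin 3) × Bool) where
  toFun p := if p.2 then (p.1, false) else (FreeGroup.of 0 * p.1, true)
  invFun p := if p.2 then ((FreeGroup.of 0)⁻¹ * p.1, false) else (p.1, true)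
  left_inv := by rintro ⟨t, c⟩; cases c <;> simp
  right_inv := by rintro ⟨t, c⟩; cases c <;> simp

/-- the action of `b` -/
def permB : Equiv.Perm (FreeGroup (Fin 3) × Bool) where
  toFun p := if p.2 then (FreeGroup.of 2 * p.1, true) else (FreeGroup.of 1 * p.1, false)
  invFun p := if p.2 then ((FreeGroup.of 2)⁻¹ * p.1, true) else ((FreeGroup.of 1)⁻¹ * p.1, false)
  left_inv := by rintro ⟨t, c⟩; cases c <;> simp
  right_inv := by rintro ⟨t, c⟩; cases c <;> simp

theorem emb_injective : Function.Injective emb := by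
  let Θ : F₂ →* Equiv.Perm (FreeGroup (Fin 3) × Bool) := FreeGroup.lift ![permA, permB]
  have ha : Θ a = permA := by simp [Θ, a]
  have hb : Θ b = permB := by simp [Θ, b]
  let Q : Subgroup (FreeGroup (Fin 3)) :=
    { carrier := {g | ∀ t, Θ (emb g) (t, false) = (g * t, false)}
      one_mem' := by intro t; simp
      mul_mem' := by
        intro g h hg hh t
        rw [map_mul, map_mul, Equiv.Perm.mul_apply, hh, hg, mul_assoc]
      inv_mem' := by
        intro g hg t
        have := hg (g⁻¹ * t)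
        rw [mul_inv_cancel_left] at this
        rw [map_inv, map_inv, Equiv.Perm.inv_eq_iff_eq, this] }
  have hQ : Q = ⊤ := by
    rw [eq_top_iff, ← FreeGroup.closure_range_of, Subgroup.closure_le]
    rintro _ ⟨i, rfl⟩ t
    fin_cases i
    · simp [emb, ha, permA]
    · simp [emb, hb, permB]
    · have h1 : (permA⁻¹ : Equiv.Perm _) (t, false) = (t, true) := rfl
      simp [emb, ha, hb, h1]
      simp [permA, permB]
  rw [injective_iff_map_eq_one]
  intro g hg
  have h1 : g ∈ Q := by rw [hQ]; trivial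
  have h2 := h1 1
  rw [hg, map_one, mul_one] at h2
  exact (congrArg Prod.fst h2).symm

/-- the parity of the number of `a`'s -/
def parity : F₂ →* Multiplicative (ZMod 2) := FreeGroup.lift ![Multiplicative.ofAdd 1, 1]

theorem parity_a : parity a = Multiplicative.ofAdd 1 := by simp [parity, a]

theorem parity_a_ne : parity a ≠ 1 := by
  rw [parity_a]
  intro h
  have : (1 : ZMod 2) = 0 := h
  exact one_ne_zero this

theorem parity_G {g : F₂} (hg : g ∈ G) : parity g = 1 := by
  obtain ⟨t, rfl⟩ := hg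
  have : parity.comp emb = 1 := by
    ext i
    fin_cases i
    · have h2 : (1 : ZMod 2) + 1 = 0 := rfl
      simp [emb, parity, a, ← ofAdd_add, h2]
    · simp [emb, parity, b]
    · simp [emb, parity, a, b]
  exact DFunLike.congr_fun this t

theorem x_mem : a * a ∈ G := ⟨FreeGroup.of 0, by simp [emb]⟩
theorem y_mem : b ∈ G := ⟨FreeGroup.of 1, by simp [emb]⟩
theorem z_mem : a * b * a⁻¹ ∈ G := ⟨FreeGroup.of 2, by simp [emb]⟩

theorem G_eq : G = parity.ker := by
  ext g
  refine ⟨fun h => parity_G h, fun h => ?_⟩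
  have h1 : g ∈ Subgroup.closure {a, b} := by
    have h2 : Subgroup.closure {a, b} = (⊤ : Subgroup F₂) := by
      rw [← FreeGroup.closure_range_of]
      congr 1
      ext t
      constructor
      · rintro (rfl | rfl)
        · exact ⟨0, rfl⟩
        · exact ⟨1, rfl⟩
      · rintro ⟨i, rfl⟩
        fin_cases i
        · exact Or.inl rfl
        · exact Or.inr rfl
    rw [h2]
    trivial
  rcases two_cosets a b G x_mem y_mem z_mem g h1 with h2 | h2
  · exact h2
  · exfalso
    have h3 := parity_G h2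
    rw [map_mul, map_inv, MonoidHom.mem_ker.1 h, one_mul, inv_eq_one] at h3
    exact parity_a_ne h3

theorem index_G : G.index = 2 := by
  rw [G_eq, Subgroup.index_ker]
  have h1 : parity.range = ⊤ := by
    rw [eq_top_iff]
    intro c _
    have hc : ∀ d : ZMod 2, d = 0 ∨ d = 1 := by decide
    obtain rfl | rfl : c = 1 ∨ c = Multiplicative.ofAdd 1 := hc c.toAdd
    · exact ⟨1, map_one _⟩
    · exact ⟨a, parity_a⟩
  rw [h1, Nat.card_congr (Subgroup.topEquiv).toEquiv]
  simp

theorem isEchelon_H : IsEchelon H := by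
  refine ⟨2, FreeGroupBasis.ofFreeGroup (Fin 2), ?_⟩
  refine Pool.Agent.Results.MP_339e71_al.EchelonIntersection.inEchelonForm_of _ H ![a, w] ?_ ?_
  · unfold H
    congr 1
    rw [Matrix.range_cons, Matrix.range_cons, Matrix.range_empty]
    simp [Set.pair_comm]
  · rw [FreeGroupBasis.ofFreeGroup_apply]
    exact Subgroup.subset_closure (by simp [a])

theorem conj_w : a * w * a⁻¹ = ⁅⁅a * a, a * b * a⁻¹⁆, a * a * b * (a * a)⁻¹⁆ := by
  simp only [w, commutatorElement_def]
  group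

/-- **Q1 has a negative answer**, already in the free group of rank two and for a subgroup `G` of
index two: there are an echelon subgroup `H` (of rank two) and a finitely generated subgroup `G` of
index two such that `H ∩ G` is not an echelon subgroup of `G`. -/
theorem result : ∃ H G : Subgroup (FreeGroup (Fin 2)),
    IsEchelon H ∧ G.FG ∧ G.index = 2 ∧ ¬ IsEchelon (H.subgroupOf G) := by
  refine ⟨H, G, isEchelon_H, ?_, index_G, ?_⟩
  · exact (Group.fg_iff_subgroup_fg G).1 (Group.fg_of_surjective emb.rangeRestrict_surjective)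
  · let e : FreeGroup (Fin 3) ≃* G := MonoidHom.ofInjective emb_injective
    have he : ∀ t, ((e t : G) : F₂) = emb t := fun t => rfl
    set x : G := ⟨a * a, x_mem⟩ with hx
    set y : G := ⟨b, y_mem⟩ with hy
    set z : G := ⟨a * b * a⁻¹, z_mem⟩ with hz
    have ex : e (FreeGroup.of 0) = x := Subtype.ext (by rw [he]; simp [emb, hx])
    have ey : e (FreeGroup.of 1) = y := Subtype.ext (by rw [he]; simp [emb, hy])
    have ez : e (FreeGroup.of 2) = z := Subtype.ext (by rw [he]; simp [emb, hz])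
    refine not_echelon x y z ?_ ?_ _ ?_
    · intro N _ n1 n2 n3
      refine ⟨(FreeGroup.lift ![n1, n2, n3]).comp e.symm.toMonoidHom, ?_, ?_, ?_⟩
      · show FreeGroup.lift ![n1, n2, n3] (e.symm x) = n1
        rw [← ex, MulEquiv.symm_apply_apply]
        simp
      · show FreeGroup.lift ![n1, n2, n3] (e.symm y) = n2
        rw [← ey, MulEquiv.symm_apply_apply]
        simp
      · show FreeGroup.lift ![n1, n2, n3] (e.symm z) = n3
        rw [← ez, MulEquiv.symm_apply_apply]
        simp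
    · rw [eq_top_iff]
      intro g _
      have h1 : e.symm g ∈ Subgroup.closure (Set.range (FreeGroup.of : Fin 3 → _)) := by
        rw [FreeGroup.closure_range_of]
        trivial
      have h2 : Subgroup.closure (Set.range (FreeGroup.of : Fin 3 → _)) ≤
          (Subgroup.closure {x, y, z}).comap e.toMonoidHom := by
        rw [Subgroup.closure_le]
        rintro _ ⟨i, rfl⟩
        fin_cases i
        · exact Subgroup.subset_closure (Or.inl ex)
        · exact Subgroup.subset_closure (Or.inr (Or.inl ey))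
        · exact Subgroup.subset_closure (Or.inr (Or.inr ez))
      have h3 := h2 h1
      rw [Subgroup.mem_comap] at h3
      have h4 : e.toMonoidHom (e.symm g) = g := e.apply_symm_apply g
      rw [h4] at h3
      exact h3
    · apply le_antisymm
      · intro g hg
        rw [Subgroup.mem_subgroupOf] at hg
        set L := Subgroup.closure {x, ⁅⁅x, y⁆, z⁆, ⁅⁅x, z⁆, x * y * x⁻¹⁆} with hL
        have m1 : a * a ∈ L.map G.subtype := ⟨x, Subgroup.subset_closure (by simp), rfl⟩
        have m2 : w ∈ L.map G.subtype := ⟨⁅⁅x, y⁆, z⁆, Subgroup.subset_closure (by simp), rfl⟩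
        have m3 : a * w * a⁻¹ ∈ L.map G.subtype := by
          rw [conj_w]
          exact ⟨⁅⁅x, z⁆, x * y * x⁻¹⁆, Subgroup.subset_closure (by simp), rfl⟩
        rcases two_cosets a w _ m1 m2 m3 g hg with h1 | h1
        · obtain ⟨g', hg', e1⟩ := h1
          rwa [← Subtype.ext e1]
        · exfalso
          obtain ⟨g', -, e1⟩ := h1
          have h3 := parity_G (mul_mem (inv_mem g'.2) g.2)
          have h4 : (g' : F₂)⁻¹ * (g : F₂) = a := by
            have h5 : (g' : F₂) = (g : F₂) * a⁻¹ := e1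
            rw [h5, mul_inv_rev, inv_inv, inv_mul_cancel_right]
          rw [h4] at h3
          exact parity_a_ne h3
      · rw [Subgroup.closure_le]
        have ha : a ∈ H := Subgroup.subset_closure (by simp)
        have hw : w ∈ H := Subgroup.subset_closure (by simp)
        rintro g (rfl | rfl | rfl)
        · exact mul_mem ha ha
        · exact hw
        · have : a * w * a⁻¹ ∈ H := mul_mem (mul_mem ha hw) (inv_mem ha)
          rw [conj_w] at this
          exact this

end Pool.Agent.Results.MP_3ccc78_al.IndexTwo
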